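import Pool.Agent.Helper59.MB.Goals4
import Pool.Agent.Helper15.MB.ISA
import Pool.Agent.Helper46.MB.ALP

/-!
Project MB (MP_49a1ce_an), packet DIS: if the Moebius function is completely deterministic then
every uniquely ergodic Bernoulli system is Moebius disjoint.
-/

set_option autoImplicit false

open MeasureTheory Filter Topology Finset

namespace Pool.Agent.Helper9.MB

open Pool.Agent.Helper59.MB

noncomputable section

lemma shift_one (g : ℕ → ℝ) (N : ℕ) :
    ∑ n ∈ Icc 1 N, g (n + 1) - ∑ n ∈ Icc 1 N, g n = g (N + 1) - g 1 := by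
  induction N with
  | zero => simp
  | succ N ih =>
    rw [Finset.sum_Icc_succ_top (by omega), Finset.sum_Icc_succ_top (by omega)]
    linarith

lemma shift_bound (g : ℕ → ℝ) (b : ℝ) (hg : ∀ n, |g n| ≤ b) (N i : ℕ) :
    |∑ n ∈ Icc 1 N, g (n + i) - ∑ n ∈ Icc 1 N, g n| ≤ 2 * i * b := by
  induction i with
  | zero => simp
  | succ i ih =>
    have h1 := shift_one (fun n => g (n + i)) N
    have h2 : ∑ n ∈ Icc 1 N, g (n + (i + 1)) - ∑ n ∈ Icc 1 N, g (n + i) =
        g (N + 1 + i) - g (1 + i) := by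
      rw [← h1]
      congr 1
      refine Finset.sum_congr rfl fun n _ => ?_
      congr 1
      omega
    have h3 := hg (N + 1 + i)
    have h4 := hg (1 + i)
    have e : ∑ n ∈ Icc 1 N, g (n + (i + 1)) - ∑ n ∈ Icc 1 N, g n =
        (∑ n ∈ Icc 1 N, g (n + i) - ∑ n ∈ Icc 1 N, g n) + (g (N + 1 + i) - g (1 + i)) := by
      linarith
    rw [e]
    have h5 := abs_add_le (∑ n ∈ Icc 1 N, g (n + i) - ∑ n ∈ Icc 1 N, g n)
      (g (N + 1 + i) - g (1 + i))
    have h6 := abs_sub (g (N + 1 + i)) (g (1 + i))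
    push_cast
    linarith

/-- the averaging step -/
lemma double_sum (g : ℕ → ℝ) (b c d : ℝ) (hb : 0 ≤ b) (hc : 0 ≤ c) (hg : ∀ n, |g n| ≤ b)
    (L N : ℕ) (hL : 1 ≤ L) (B : Finset ℕ)
    (hB : ∀ n ∈ Icc 1 N, n ∉ B → |∑ i : Fin L, g (n + i)| ≤ c * L)
    (hcard : (B.card : ℝ) ≤ d * N) :
    |∑ n ∈ Icc 1 N, g n| ≤ c * N + d * N * b + 2 * L * b := by
  classical
  have hL0 : (0 : ℝ) < L := by exact_mod_cast hL
  have h1 : |∑ n ∈ Icc 1 N, ∑ i : Fin L, g (n + i)| ≤ N * (c * L) + d * N * (L * b) := by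
    calc |∑ n ∈ Icc 1 N, ∑ i : Fin L, g (n + i)|
        ≤ ∑ n ∈ Icc 1 N, |∑ i : Fin L, g (n + i)| := Finset.abs_sum_le_sum_abs _ _
      _ ≤ ∑ n ∈ Icc 1 N, (c * L + if n ∈ B then L * b else 0) := by
          refine Finset.sum_le_sum fun n hn => ?_
          by_cases h : n ∈ B
          · rw [if_pos h]
            have : |∑ i : Fin L, g (n + i)| ≤ ∑ i : Fin L, b :=
              (Finset.abs_sum_le_sum_abs _ _).trans (Finset.sum_le_sum fun i _ => hg _)
            rw [Finset.sum_const, Finset.card_univ, Fintype.card_fin, nsmul_eq_mul] at this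
            have : 0 ≤ c * L := by positivity
            linarith
          · rw [if_neg h, add_zero]
            exact hB n hn h
      _ = N * (c * L) + ((Icc 1 N).filter (· ∈ B)).card * (L * b) := by
          rw [Finset.sum_add_distrib, Finset.sum_const, Nat.card_Icc, nsmul_eq_mul,
            ← Finset.sum_filter, Finset.sum_const, nsmul_eq_mul]
          simp
      _ ≤ N * (c * L) + d * N * (L * b) := by
          have h2 : (((Icc 1 N).filter (· ∈ B)).card : ℝ) ≤ B.card := by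
            exact_mod_cast Finset.card_le_card fun n hn => (Finset.mem_filter.1 hn).2
          have h3 : (0 : ℝ) ≤ L * b := by positivity
          have := mul_le_mul_of_nonneg_right (h2.trans hcard) h3
          linarith
  have h2 : |∑ n ∈ Icc 1 N, ∑ i : Fin L, g (n + i) - L * ∑ n ∈ Icc 1 N, g n| ≤
      L * (2 * L * b) := by
    rw [Finset.sum_comm]
    have e : ∑ i : Fin L, ∑ n ∈ Icc 1 N, g (n + i) - L * ∑ n ∈ Icc 1 N, g n =
        ∑ i : Fin L, (∑ n ∈ Icc 1 N, g (n + i) - ∑ n ∈ Icc 1 N, g n) := by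
      rw [Finset.sum_sub_distrib, Finset.sum_const, Finset.card_univ, Fintype.card_fin,
        nsmul_eq_mul]
    rw [e]
    calc |∑ i : Fin L, (∑ n ∈ Icc 1 N, g (n + i) - ∑ n ∈ Icc 1 N, g n)|
        ≤ ∑ i : Fin L, |∑ n ∈ Icc 1 N, g (n + i) - ∑ n ∈ Icc 1 N, g n| :=
          Finset.abs_sum_le_sum_abs _ _
      _ ≤ ∑ i : Fin L, 2 * L * b := by
          refine Finset.sum_le_sum fun i _ => (shift_bound g b hg N i).trans ?_
          have : ((i : ℕ) : ℝ) ≤ L := by exact_mod_cast i.2.le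
          nlinarith
      _ = L * (2 * L * b) := by
          rw [Finset.sum_const, Finset.card_univ, Fintype.card_fin, nsmul_eq_mul]
  have h3 : |L * ∑ n ∈ Icc 1 N, g n| ≤ N * (c * L) + d * N * (L * b) + L * (2 * L * b) := by
    have e : (L : ℝ) * ∑ n ∈ Icc 1 N, g n = ∑ n ∈ Icc 1 N, ∑ i : Fin L, g (n + i) -
        (∑ n ∈ Icc 1 N, ∑ i : Fin L, g (n + i) - L * ∑ n ∈ Icc 1 N, g n) := by ring
    rw [e]
    exact (abs_sub _ _).trans (add_le_add h1 h2)
  rw [abs_mul, abs_of_pos hL0] at h3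
  have h4 : (L : ℝ) * |∑ n ∈ Icc 1 N, g n| ≤ L * (c * N + d * N * b + 2 * L * b) := by
    calc (L : ℝ) * |∑ n ∈ Icc 1 N, g n| ≤ _ := h3
      _ = L * (c * N + d * N * b + 2 * L * b) := by ring
  exact le_of_mul_le_mul_left h4 hL0

/-- the case of mean zero -/
lemma dis_zero (hVIS : S_VIS) (hWIN : S_WIN) (hSLW : S_SLW)
    (hdet : ∀ δ : ℝ, 0 < δ → ¬ NP (fun n => ArithmeticFunction.moebius n) δ)
    (Y : Type) [MetricSpace Y] [CompactSpace Y] [MeasurableSpace Y] [BorelSpace Y] (T : Y ≃ₜ Y)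
    (ν : Measure Y) (hUE : UE (⇑T) ν) (m : Measure A) [IsProbabilityMeasure m]
    (hIso : Iso (⇑T) ν (shiftZ A) (Be m)) (F : C(Y, ℝ)) (hF : ∫ y, F y ∂ν = 0) (x : Y)
    (ε : ℝ) (hε : 0 < ε) :
    ∃ N₀ : ℕ, ∀ N ≥ N₀,
      |∑ n ∈ Icc 1 N, F (T^[n] x) * ((ArithmeticFunction.moebius n : ℤ) : ℝ)| ≤ ε * N := by
  classical
  obtain ⟨hprob, hmp, -⟩ := id hUE
  set b : ℝ := ‖F‖ + 1 with hbdef
  have hb0 : 0 < b := by positivity
  have hFb : ∀ y, |F y| ≤ b := fun y => by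
    have := F.norm_coe_le_norm y
    rw [Real.norm_eq_abs] at this
    linarith
  set u : ℕ → ℤ := fun n => ArithmeticFunction.moebius n with hu
  have hu1 : ∀ n, |u n| ≤ 1 := fun n => ArithmeticFunction.abs_moebius_le_one
  have hc : 0 < ε / 4 := by positivity
  have hη : 0 < ε / (12 * b) := by positivity
  obtain ⟨ε₀, hε₀, L₀, hL₀⟩ := hWIN Y (⇑T) ν m F b hprob hmp hIso F.continuous.measurable hFb hF
    (ε / 4) (ε / (12 * b)) hc hη
  obtain ⟨L₁, hL₁⟩ := hSLW u hu1 hdet (min ε₀ (ε / (12 * b))) (lt_min hε₀ hη)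
  set L : ℕ := max (max L₀ L₁) 1 with hLdef
  have hL1 : 1 ≤ L := le_max_right _ _
  obtain ⟨U, hUcard, hUb, N₁, hN₁⟩ := hL₁ L ((le_max_right _ _).trans (le_max_left _ _))
  have hUcard' : (U.card : ℝ) ≤ 2 ^ (ε₀ * L) := by
    refine hUcard.trans (Real.rpow_le_rpow_of_exponent_le (by norm_num) ?_)
    exact mul_le_mul_of_nonneg_right (min_le_left _ _) (by positivity)
  set S : Set Y := {y | ∃ v ∈ U, ε / 4 * L ≤ |∑ i : Fin L, F (T^[(i : ℕ)] y) * v i|} with hS
  have hSν : ν.real S ≤ ε / (12 * b) :=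
    hL₀ L ((le_max_left _ _).trans (le_max_left _ _)) U hUcard' hUb
  have hSc : IsClosed S := by
    have e : S = ⋃ v ∈ U, {y | ε / 4 * L ≤ |∑ i : Fin L, F (T^[(i : ℕ)] y) * v i|} := by
      ext y
      simp [hS]
    rw [e]
    refine isClosed_biUnion_finset fun v _ => isClosed_le continuous_const ?_
    refine continuous_abs.comp (continuous_finsetSum _ fun i _ => ?_)
    exact (F.continuous.comp (T.continuous.iterate _)).mul continuous_const
  obtain ⟨N₂, hN₂⟩ := hVIS Y (⇑T) ν T.continuous hUE S (2 * (ε / (12 * b))) hSc (by linarith)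
  obtain ⟨N₃, hN₃⟩ := exists_nat_ge (4 * L * b / ε)
  refine ⟨max (max N₁ N₂) N₃, fun N hN => ?_⟩
  have hN1 : N₁ ≤ N := (le_max_left _ _).trans ((le_max_left _ _).trans hN)
  have hN2 : N₂ ≤ N := (le_max_right _ _).trans ((le_max_left _ _).trans hN)
  have hN3 : N₃ ≤ N := (le_max_right _ _).trans hN
  have c1 := hN₁ N hN1
  have c2 := hN₂ N hN2 x
  have s1 : {n : ℕ | n ∈ Icc 1 N ∧ (fun i : Fin L => u (n + i)) ∉ U} =
      (((Icc 1 N).filter fun n => (fun i : Fin L => u (n + i)) ∉ U : Finset ℕ) : Set ℕ) := by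
    ext n; simp
  have s2 : {n : ℕ | n ∈ Icc 1 N ∧ T^[n] x ∈ S} =
      (((Icc 1 N).filter fun n => T^[n] x ∈ S : Finset ℕ) : Set ℕ) := by
    ext n; simp
  rw [s1, Set.ncard_coe_finset] at c1
  rw [s2, Set.ncard_coe_finset] at c2
  set B : Finset ℕ := ((Icc 1 N).filter fun n => (fun i : Fin L => u (n + i)) ∉ U) ∪
    ((Icc 1 N).filter fun n => T^[n] x ∈ S) with hB
  have hBcard : (B.card : ℝ) ≤ (3 * (ε / (12 * b))) * N := by
    have h1 : (B.card : ℝ) ≤ ((Icc 1 N).filter fun n => (fun i : Fin L => u (n + i)) ∉ U).card +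
        ((Icc 1 N).filter fun n => T^[n] x ∈ S).card := by
      exact_mod_cast Finset.card_union_le _ _
    have h2 : min ε₀ (ε / (12 * b)) * N ≤ ε / (12 * b) * N :=
      mul_le_mul_of_nonneg_right (min_le_right _ _) (by positivity)
    linarith
  have hg : ∀ n, |F (T^[n] x) * (u n : ℝ)| ≤ b := fun n => by
    rw [abs_mul]
    have h1 : |(u n : ℝ)| ≤ 1 := by exact_mod_cast hu1 n
    calc |F (T^[n] x)| * |(u n : ℝ)| ≤ b * 1 :=
          mul_le_mul (hFb _) h1 (abs_nonneg _) hb0.le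
      _ = b := mul_one b
  have key := double_sum (fun n => F (T^[n] x) * (u n : ℝ)) b (ε / 4) (3 * (ε / (12 * b))) hb0.le
    hc.le hg L N hL1 B ?_ hBcard
  · refine key.trans ?_
    have h1 : 3 * (ε / (12 * b)) * N * b = ε / 4 * N := by
      field_simp
      ring
    have h2 : 2 * L * b ≤ ε / 2 * N := by
      have h3 : 4 * L * b / ε ≤ N := hN₃.trans (by exact_mod_cast hN3)
      rw [div_le_iff₀ hε] at h3
      linarith
    rw [h1]
    linarith
  · intro n hn hnB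
    have hn1 : (fun i : Fin L => u (n + i)) ∈ U := by
      by_contra h
      exact hnB (Finset.mem_union_left _ (Finset.mem_filter.2 ⟨hn, h⟩))
    have hn2 : T^[n] x ∉ S := fun h =>
      hnB (Finset.mem_union_right _ (Finset.mem_filter.2 ⟨hn, h⟩))
    by_contra h
    push Not at h
    refine hn2 ⟨_, hn1, h.le.trans (le_of_eq ?_)⟩
    congr 1
    refine Finset.sum_congr rfl fun i _ => ?_
    rw [← Function.iterate_add_apply, add_comm (i : ℕ) n]

theorem t_DIS (hVIS : S_VIS) (hWIN : S_WIN) (hSLW : S_SLW) (hNT : S_NT) : S_DIS := by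
  intro hdet Y _ _ _ _ T ν hUE hZ f x
  obtain ⟨Z, _, _, κ, _, hIsoZ⟩ := hZ
  obtain ⟨m, _, -, hIsoA, -⟩ := Pool.Agent.Helper46.MB.t_ALP Z κ
  have hIso : Iso (⇑T) ν (shiftZ A) (Be m) :=
    Pool.Agent.Helper15.MB.t_ISA.2 _ _ _ _ _ _ _ _ _ hIsoZ hIsoA
  have := hUE.1
  set a : ℝ := ∫ y, f y ∂ν with ha
  set F : C(Y, ℝ) := f - ContinuousMap.const Y a with hFdef
  have hF : ∫ y, F y ∂ν = 0 := by
    have hi : Integrable (fun y => f y) ν :=
      f.continuous.integrable_of_hasCompactSupport (HasCompactSupport.of_compactSpace _)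
    have : ∫ y, F y ∂ν = ∫ y, (f y - a) ∂ν := rfl
    rw [this, integral_sub hi (integrable_const a)]
    simp [ha]
  rw [Metric.tendsto_atTop]
  intro ε hε
  obtain ⟨N₁, hN₁⟩ := dis_zero hVIS hWIN hSLW hdet Y T ν hUE m hIso F hF x (ε / 4) (by positivity)
  obtain ⟨N₂, hN₂⟩ := hNT 0 (ε / (4 * (|a| + 1))) (by positivity)
  refine ⟨max (max N₁ N₂) 1, fun N hN => ?_⟩
  have hN1 : N₁ ≤ N := (le_max_left _ _).trans ((le_max_left _ _).trans hN)
  have hN2 : N₂ ≤ N := (le_max_right _ _).trans ((le_max_left _ _).trans hN)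
  have hN0 : (0 : ℝ) < N := by exact_mod_cast (le_max_right _ _).trans hN
  have h1 := hN₁ N hN1
  have h2 := hN₂ N hN2 0
  have e2 : ∑ n ∈ (Icc 1 N).filter (fun n => n % 2 ^ 0 = 0), mu n =
      ∑ n ∈ Icc 1 N, ((ArithmeticFunction.moebius n : ℤ) : ℝ) := by
    rw [Finset.filter_true_of_mem (by intro n _; simp [Nat.mod_one])]
    refine Finset.sum_congr rfl fun n _ => ?_
    simp [mu]
  rw [e2] at h2
  have e3 : ∑ n ∈ Icc 1 N, f (T^[n] x) * ((ArithmeticFunction.moebius n : ℤ) : ℝ) =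
      ∑ n ∈ Icc 1 N, F (T^[n] x) * ((ArithmeticFunction.moebius n : ℤ) : ℝ) +
        a * ∑ n ∈ Icc 1 N, ((ArithmeticFunction.moebius n : ℤ) : ℝ) := by
    rw [Finset.mul_sum, ← Finset.sum_add_distrib]
    refine Finset.sum_congr rfl fun n _ => ?_
    simp only [hFdef, ContinuousMap.sub_apply, ContinuousMap.const_apply]
    ring
  rw [dist_zero_right, Real.norm_eq_abs, e3, abs_mul, abs_of_pos (by positivity)]
  have h3 : |a| * |∑ n ∈ Icc 1 N, ((ArithmeticFunction.moebius n : ℤ) : ℝ)| ≤ ε / 4 * N := by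
    calc |a| * |∑ n ∈ Icc 1 N, ((ArithmeticFunction.moebius n : ℤ) : ℝ)|
        ≤ (|a| + 1) * (ε / (4 * (|a| + 1)) * N) :=
          mul_le_mul (by linarith) h2 (abs_nonneg _) (by positivity)
      _ = ε / 4 * N := by
          have : |a| + 1 ≠ 0 := by positivity
          field_simp
  have h4 : |∑ n ∈ Icc 1 N, F (T^[n] x) * ((ArithmeticFunction.moebius n : ℤ) : ℝ) +
      a * ∑ n ∈ Icc 1 N, ((ArithmeticFunction.moebius n : ℤ) : ℝ)| ≤ ε / 2 * N := by
    refine (abs_add_le _ _).trans ?_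
    rw [abs_mul a]
    linarith
  calc 1 / (N : ℝ) * |_| ≤ 1 / (N : ℝ) * (ε / 2 * N) :=
        mul_le_mul_of_nonneg_left h4 (by positivity)
    _ = ε / 2 := by field_simp
    _ < ε := by linarith

end

end Pool.Agent.Helper9.MB
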